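import Mathlib

/-!
The semigroup generated by the sides `a, b, c` of a triangle with an angle of 120 degrees.
-/

set_option autoImplicit false

namespace Pool.Agent.KS6_79.TT

/-- The parametrisation: three relations with coefficients at most `3 c` squared. -/
lemma param (a b c : ℕ) (ha : 0 < a) (hb : 0 < b) (hl : c ^ 2 = a ^ 2 + b ^ 2 + a * b) :
    ∃ m n : ℕ, 0 < n ∧ n < m ∧ m ^ 2 ≤ 3 * c ∧
      m * b = n * (a + c) ∧ m * c = (m + n) * a + n * b := by
  have hcb : b < c := by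
    by_contra h
    push Not at h
    have : c ^ 2 ≤ b ^ 2 := Nat.pow_le_pow_left h 2
    have : 0 < a ^ 2 := by positivity
    omega
  have hcab : c < a + b := by
    by_contra h
    push Not at h
    have h1 : (a + b) ^ 2 ≤ c ^ 2 := Nat.pow_le_pow_left h 2
    have h2 : 0 < a * b := by positivity
    nlinarith
  have h2c : a + 2 * b < 2 * c := by
    by_contra h
    push Not at h
    have h1 : (2 * c) ^ 2 ≤ (a + 2 * b) ^ 2 := Nat.pow_le_pow_left h 2
    have h2 : 0 < a * a := by positivity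
    nlinarith
  obtain ⟨e, he⟩ := Nat.exists_eq_add_of_lt hcb
  -- `c - b = p g`, `a = q g`
  obtain ⟨d, hd⟩ : ∃ d, d = c - b := ⟨_, rfl⟩
  have hcd : c = b + d := by omega
  have hd0 : 0 < d := by omega
  obtain ⟨g, hg⟩ : ∃ g, g = Nat.gcd d a := ⟨_, rfl⟩
  have hg0 : 0 < g := by rw [hg]; exact Nat.gcd_pos_of_pos_left _ hd0
  obtain ⟨p, hp⟩ : g ∣ d := by rw [hg]; exact Nat.gcd_dvd_left _ _
  obtain ⟨q, hq⟩ : g ∣ a := by rw [hg]; exact Nat.gcd_dvd_right _ _
  have hpq : Nat.Coprime p q := by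
    have h := Nat.coprime_div_gcd_div_gcd (m := d) (n := a) (by rw [← hg]; exact hg0)
    rw [← hg, hp, hq, Nat.mul_div_cancel_left _ hg0, Nat.mul_div_cancel_left _ hg0] at h
    exact h
  have hpq1 : p < q := by
    have : g * p < g * q := by rw [← hp, ← hq]; omega
    exact lt_of_mul_lt_mul_left this (Nat.zero_le _)
  have hpq2 : q < 2 * p := by
    have : g * q < g * (2 * p) := by
      have e1 : g * (2 * p) = 2 * d := by rw [hp]; ring
      rw [e1, ← hq]; omega
    exact lt_of_mul_lt_mul_left this (Nat.zero_le _)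
  obtain ⟨n, hn⟩ : ∃ n, n = q - p := ⟨_, rfl⟩
  have hqn : q = p + n := by omega
  obtain ⟨D, hD⟩ : ∃ D, D = p - n := ⟨_, rfl⟩
  have hpD : p = n + D := by omega
  have hD0 : 0 < D := by omega
  have hn0 : 0 < n := by omega
  have hp0 : 0 < p := by omega
  -- in integers
  have hZ : (c : ℤ) ^ 2 = a ^ 2 + b ^ 2 + a * b := by exact_mod_cast hl
  have hcZ : (c : ℤ) = b + d := by exact_mod_cast hcd
  have hdZ : (d : ℤ) = g * p := by exact_mod_cast hp
  have haZ : (a : ℤ) = g * q := by exact_mod_cast hq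
  have hqZ : (q : ℤ) = p + n := by exact_mod_cast hqn
  have hg0Z : (g : ℤ) ≠ 0 := by exact_mod_cast hg0.ne'
  have r2 : (p : ℤ) * b = n * (a + c) := by
    apply mul_left_cancel₀ hg0Z
    have e1 : (g : ℤ) * (p * b) = d * b := by rw [hdZ]; ring
    have e2 : (g : ℤ) * (n * (a + c)) = (a - d) * (a + c) := by
      rw [haZ, hdZ, hqZ]; ring
    rw [e1, e2]
    rw [hcZ] at hZ ⊢
    linarith
  have r3 : (p : ℤ) * c = (p + n) * a + n * b := by
    apply mul_left_cancel₀ hg0Z
    have e1 : (g : ℤ) * (p * c) = d * c := by rw [hdZ]; ring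
    have e2 : (g : ℤ) * ((p + n) * a + n * b) = a * a + (a - d) * b := by
      rw [haZ, hdZ, hqZ]; ring
    rw [e1, e2]
    rw [hcZ] at hZ ⊢
    linarith
  -- `k` with `b + c = q k`
  have r4 : (p : ℤ) * (b + c) = q * (a + b) := by
    rw [hqZ]; linarith
  have hk : (q : ℤ) ∣ b + c := by
    have h1 : (q : ℤ) ∣ p * (b + c) := ⟨_, r4⟩
    have h2 : IsCoprime (q : ℤ) p := by
      rw [Nat.isCoprime_iff_coprime]
      exact hpq.symm
    exact h2.dvd_of_dvd_mul_left h1
  obtain ⟨k, hk⟩ := hk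
  have hq0Z : (q : ℤ) ≠ 0 := by
    have : 0 < q := by omega
    exact_mod_cast this.ne'
  have hk2 : (a : ℤ) + b = p * k := by
    apply mul_left_cancel₀ hq0Z
    rw [← r4, hk]; ring
  have hDZ : (D : ℤ) = 2 * p - q := by
    have : (p : ℤ) = n + D := by exact_mod_cast hpD
    rw [hqZ]; linarith
  -- `g (2 q - p) = k D`
  have r5 : (g : ℤ) * (2 * q - p) = k * D := by
    have e1 : (g : ℤ) * (2 * q - p) = 2 * a - d := by rw [haZ, hdZ]; ring
    rw [e1, hDZ]
    have e2 : k * (2 * (p : ℤ) - q) = 2 * (p * k) - q * k := by ring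
    rw [e2, ← hk2, ← hk, hcZ]
    ring
  have hDdvd : (D : ℤ) ∣ 3 * g := by
    have h1 : (D : ℤ) ∣ 3 * g * p := by
      have : (3 : ℤ) * g * p = g * (2 * q - p) + 2 * g * D := by rw [hDZ]; ring
      rw [this, r5]
      exact dvd_add (Dvd.intro_left _ rfl) (Dvd.intro_left _ rfl)
    have h2 : (D : ℤ) ∣ 3 * g * q := by
      have : (3 : ℤ) * g * q = 2 * (3 * g * p) - 3 * g * D := by rw [hDZ]; ring
      rw [this]
      exact dvd_sub (Dvd.dvd.mul_left h1 _) (Dvd.intro_left _ rfl)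
    obtain ⟨x, y, hxy⟩ : IsCoprime (p : ℤ) q := by
      rw [Nat.isCoprime_iff_coprime]; exact hpq
    have : (3 : ℤ) * g = x * (3 * g * p) + y * (3 * g * q) := by
      linear_combination (-3 * (g : ℤ)) * hxy
    rw [this]
    exact dvd_add (Dvd.dvd.mul_left h1 _) (Dvd.dvd.mul_left h2 _)
  obtain ⟨e', he'⟩ := hDdvd
  have hD0Z : (0 : ℤ) < D := by exact_mod_cast hD0
  have hgZ : (0 : ℤ) < g := by exact_mod_cast hg0
  have he'0 : 1 ≤ e' := by
    by_contra h
    have h : e' ≤ 0 := by omega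
    have : (D : ℤ) * e' ≤ 0 := mul_nonpos_of_nonneg_of_nonpos hD0Z.le h
    linarith
  have hk3 : 3 * k = e' * (2 * q - p) := by
    apply mul_left_cancel₀ hD0Z.ne'
    have : (D : ℤ) * (3 * k) = 3 * (k * D) := by ring
    rw [this, ← r5]
    have : (D : ℤ) * (e' * (2 * q - p)) = (D * e') * (2 * q - p) := by ring
    rw [this, ← he']
    ring
  have hpZ : (p : ℤ) < q := by exact_mod_cast hpq1
  have hp0Z : (0 : ℤ) < p := by exact_mod_cast hp0
  have hg3 : 2 * (p : ℤ) - q ≤ 3 * g := by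
    rw [he', ← hDZ]
    exact le_mul_of_one_le_right hD0Z.le he'0
  have hk4 : 2 * (q : ℤ) - p ≤ 3 * k := by
    rw [hk3]
    exact le_mul_of_one_le_left (by linarith) he'0
  have hc2 : 2 * (c : ℤ) = q * k + p * g := by
    have e1 : (q : ℤ) * k = b + c := hk.symm
    have e2 : (p : ℤ) * g = d := by rw [hdZ]; ring
    rw [e1, e2, hcZ]; ring
  have hfin : (p : ℤ) ^ 2 ≤ 3 * c := by
    have h1 : (q : ℤ) * (2 * q - p) + p * (2 * p - q) ≤ q * (3 * k) + p * (3 * g) :=
      add_le_add (mul_le_mul_of_nonneg_left hk4 (by linarith))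
        (mul_le_mul_of_nonneg_left hg3 hp0Z.le)
    have h2 : (q : ℤ) * (3 * k) + p * (3 * g) = 6 * c := by linear_combination (-3 : ℤ) * hc2
    rw [h2] at h1
    have h3 : 0 ≤ (q : ℤ) * (q - p) := mul_nonneg (by linarith) (by linarith)
    have h4 : (q : ℤ) * (2 * q - p) + p * (2 * p - q) = 2 * (q * (q - p)) + 2 * p ^ 2 := by ring
    rw [h4] at h1
    linarith
  refine ⟨p, n, hn0, by omega, by exact_mod_cast hfin, by exact_mod_cast r2, by exact_mod_cast r3⟩

/-- Every integer `t ≥ (m - 1) (b + c)` is a sum of multiples of `a`, `b`, `c`. -/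
lemma mem_semigroup (a b c m n : ℕ) (ha : 0 < a) (hab : Nat.Coprime a b) (hn : n < m)
    (r2 : m * b = n * (a + c)) (r3 : m * c = (m + n) * a + n * b) (t : ℕ)
    (ht : (m - 1) * (b + c) ≤ t) : ∃ x y z : ℕ, t = x * a + y * b + z * c := by
  have r2' : (m : ℤ) * b = n * (a + c) := by exact_mod_cast r2
  have r3' : (m : ℤ) * c = (m + n) * a + n * b := by exact_mod_cast r3
  -- reduction
  have key : ∀ N : ℕ, ∀ (x : ℤ) (y z : ℕ), y + z ≤ N → (t : ℤ) = x * a + y * b + z * c →
      ∃ (x' : ℤ) (y' z' : ℕ), y' < m ∧ z' < m ∧ (t : ℤ) = x' * a + y' * b + z' * c := by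
    intro N
    induction N with
    | zero =>
      intro x y z h h'
      refine ⟨x, y, z, by omega, by omega, h'⟩
    | succ N ih =>
      intro x y z h h'
      by_cases h1 : m ≤ y
      · obtain ⟨y', rfl⟩ := Nat.exists_eq_add_of_le h1
        refine ih (x + n) y' (z + n) (by omega) ?_
        rw [h']
        push_cast
        linear_combination r2'
      · by_cases h2 : m ≤ z
        · obtain ⟨z', rfl⟩ := Nat.exists_eq_add_of_le h2
          refine ih (x + (m + n)) (y + n) z' (by omega) ?_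
          rw [h']
          push_cast
          linear_combination r3'
        · exact ⟨x, y, z, by omega, by omega, h'⟩
  -- a first representation
  obtain ⟨u, v, huv⟩ : IsCoprime (a : ℤ) b := by
    rw [Nat.isCoprime_iff_coprime]; exact hab
  have haZ : (0 : ℤ) < a := by exact_mod_cast ha
  obtain ⟨y, hy⟩ : ∃ y : ℕ, (y : ℤ) = (t * v) % a :=
    ⟨((t * v) % a).toNat, Int.toNat_of_nonneg (Int.emod_nonneg _ haZ.ne')⟩
  have hdiv := Int.emod_add_mul_ediv (t * v) a
  have h0 : (t : ℤ) = (t * u + (t * v / a) * b) * a + y * b + (0 : ℕ) * c := by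
    rw [hy]
    push_cast
    linear_combination (-(t : ℤ)) * huv - b * hdiv
  obtain ⟨x', y', z', h1, h2, h3⟩ := key _ _ _ _ le_rfl h0
  have hm : 1 ≤ m := by omega
  have h4 : (y' : ℤ) * b + z' * c ≤ t := by
    have e1 : y' * b ≤ (m - 1) * b := Nat.mul_le_mul_right _ (by omega)
    have e2 : z' * c ≤ (m - 1) * c := Nat.mul_le_mul_right _ (by omega)
    have e3 : y' * b + z' * c ≤ t := by
      refine (add_le_add e1 e2).trans ?_
      rw [← mul_add]
      exact ht
    exact_mod_cast e3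
  have h5 : 0 ≤ x' * a := by linarith
  have h6 : 0 ≤ x' := nonneg_of_mul_nonneg_left h5 haZ
  refine ⟨x'.toNat, y', z', ?_⟩
  have h7 : ((x'.toNat : ℕ) : ℤ) = x' := Int.toNat_of_nonneg h6
  have : (t : ℤ) = ((x'.toNat * a + y' * b + z' * c : ℕ) : ℤ) := by
    push_cast
    rw [h7]
    exact h3
  exact_mod_cast this

/-- Every integer `t` with `t² ≥ 12 c³` is a sum of multiples of `a`, `b`, `c`. -/
lemma mem_of_large (a b c : ℕ) (ha : 0 < a) (hb : 0 < b) (hab : Nat.Coprime a b)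
    (hl : c ^ 2 = a ^ 2 + b ^ 2 + a * b) (t : ℕ) (ht : 12 * c ^ 3 ≤ t ^ 2) :
    ∃ x y z : ℕ, t = x * a + y * b + z * c := by
  obtain ⟨m, n, hn0, hnm, hm, r2, r3⟩ := param a b c ha hb hl
  refine mem_semigroup a b c m n ha hab hnm r2 r3 t ?_
  have hcb : b ≤ c := by
    by_contra h
    push Not at h
    have : c ^ 2 < b ^ 2 := Nat.pow_lt_pow_left h two_ne_zero
    have : 0 < a ^ 2 := by positivity
    omega
  have h1 : ((m - 1) * (b + c)) ^ 2 ≤ t ^ 2 := by
    refine le_trans ?_ ht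
    calc ((m - 1) * (b + c)) ^ 2 ≤ (m * (2 * c)) ^ 2 := by
          apply Nat.pow_le_pow_left
          apply Nat.mul_le_mul (by omega) (by omega)
      _ = m ^ 2 * (4 * c ^ 2) := by ring
      _ ≤ 3 * c * (4 * c ^ 2) := Nat.mul_le_mul_right _ hm
      _ = 12 * c ^ 3 := by ring
  exact (Nat.pow_le_pow_iff_left two_ne_zero).1 h1

end Pool.Agent.KS6_79.TT
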