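import Pool.Graph.R_pool_sql_team_seeded_3997aac3.Q119.TL.Stack

/-!
Layers with long bases `c² + n₁ a + n₂ b + n₃ c`: the new piece is a parallelogram with sides
parallel to the side `c` of the tile and to the side `b` of the middle triangle.
-/

set_option autoImplicit false

namespace Pool.Agent.KS6_79.TT

open Set Q119.TL

lemma TR_swap {a b c : ℝ} {R : Set (ℝ × ℝ)} {N : ℕ} (h : TR (cpV c b a) R N) :
    TR (cpV a b c) R N := by
  obtain ⟨ι, i1, A, B, C, hc, hcp, hU, hsep⟩ := h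
  have hnf : ∀ p q : ℝ × ℝ, nf (p - q) = nf (q - p) := by
    intro p q
    simp only [nf, Prod.fst_sub, Prod.snd_sub]
    ring
  have htri : ∀ X Y Z : ℝ × ℝ, tri Z Y X = tri X Y Z := by
    intro X Y Z
    unfold tri
    congr 1
    ext w
    simp only [mem_insert_iff, mem_singleton_iff]
    tauto
  refine ⟨ι, i1, C, B, A, hc, ?_, ?_, ?_⟩
  · intro i
    obtain ⟨h1, h2, h3⟩ := hcp i
    exact ⟨by rw [hnf]; exact h3, by rw [hnf]; exact h2, by rw [hnf]; exact h1⟩
  · simp only [htri]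
    exact hU
  · intro i j hij
    rw [htri (A i) (B i) (C i), htri (A j) (B j) (C j)]
    exact hsep i j hij

lemma TR_shiftx {a b c : ℝ} {N : ℕ} (Q : ℝ → ℝ → Prop) (d : ℝ)
    (h : TR (cpV a b c) {p : ℝ × ℝ | Q p.1 p.2} N) :
    TR (cpV a b c) {p : ℝ × ℝ | Q (p.1 - d) p.2} N := by
  have h1 := h.map (AffineEquiv.constVAdd ℝ (ℝ × ℝ) (d, 0)) (cpV_shift (d, 0))
  convert h1 using 1
  ext ⟨x, y⟩
  simp only [mem_ofPred_eq, mem_image]
  constructor
  · intro h
    exact ⟨(x - d, y), h, by simp⟩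
  · rintro ⟨⟨u, v⟩, h, h'⟩
    have h' : (d + u, 0 + v) = (x, y) := h'
    rw [Prod.mk.injEq] at h'
    obtain ⟨e1, e2⟩ := h'
    have e3 : x - d = u := by linarith
    have e4 : y = v := by linarith
    rw [e3, e4]
    exact h

section

variable (a b c : ℕ) (ha : 0 < a) (hb : 0 < b) (hc : 0 < c) (hl : c ^ 2 = a ^ 2 + b ^ 2 + a * b)

include ha hb hl hc

/-- the parallelogram with the horizontal side `n c` and the side of the middle triangle -/
lemma reg_p3 (n : ℕ) (hn : 0 < n) : TR (cpV a b c)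
    {p : ℝ × ℝ | 0 ≤ p.2 ∧ p.2 ≤ a * b ∧ b * p.2 ≤ a * p.1 ∧ a * p.1 ≤ b * p.2 + n * (a * c)}
      (2 * n * c) := by
  have ha' : (0 : ℝ) < a := by exact_mod_cast ha
  have hb' : (0 : ℝ) < b := by exact_mod_cast hb
  have hc' : (0 : ℝ) < c := by exact_mod_cast hc
  have hl' : (c : ℝ) ^ 2 = a ^ 2 + b ^ 2 + a * b := by exact_mod_cast hl
  have h := frame_para (a := c) (b := b) (c := a) (0, 0)
    ((c : ℝ), 0) ((b : ℝ) ^ 2 / c, a * b / c)
    (by
      simp only
      have : (c : ℝ) * (a * b / c) - 0 * ((b : ℝ) ^ 2 / c) = a * b := by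
        field_simp; ring
      rw [this]
      positivity)
    (by simp [nf])
    (by simp only [nf]; field_simp; rw [hl']; ring)
    (by
      simp only [nf, Prod.fst_sub, Prod.snd_sub]
      have e1 : (c : ℝ) - (b : ℝ) ^ 2 / c = (a ^ 2 + a * b) / c := by
        field_simp; rw [hl']; ring
      rw [e1]
      field_simp; rw [hl']; ring)
    (fun x y => (a * x - b * y) / (a * c))
    (fun x y => c * y / (a * b))
    (by intro x y; simp only; field_simp; ring)
    (by intro x y; simp only; field_simp; ring) n c hn hc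
  have h2 := TR_swap h
  convert h2 using 1
  ext ⟨x, y⟩
  simp only [mem_ofPred_eq, zero_add]
  have hac : (0 : ℝ) < a * c := by positivity
  have hab : (0 : ℝ) < a * b := by positivity
  rw [div_le_iff₀ hac, div_le_iff₀ hab]
  constructor
  · rintro ⟨h1, h2, h3, h4⟩
    refine ⟨div_nonneg (by linarith) hac.le, by linarith, div_nonneg (by positivity) hab.le, ?_⟩
    exact mul_le_mul_of_nonneg_left h2 hc'.le
  · rintro ⟨h1, h2, h3, h4⟩
    have h1' : 0 ≤ a * x - b * y := by
      have := mul_nonneg h1 hac.le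
      rwa [div_mul_cancel₀ _ hac.ne'] at this
    have h3' : 0 ≤ c * y := by
      have := mul_nonneg h3 hab.le
      rwa [div_mul_cancel₀ _ hab.ne'] at this
    exact ⟨nonneg_of_mul_nonneg_right h3' hc', le_of_mul_le_mul_left h4 hc', by linarith,
      by linarith⟩

/-- the trapezoid with legs `ab` and bottom `c² + n c` -/
lemma trapc (n : ℕ) : TR (cpV a b c)
    {p : ℝ × ℝ | 0 ≤ p.1 ∧ 0 ≤ p.2 ∧ p.2 ≤ a * b ∧ p.1 + p.2 ≤ c ^ 2 + n * c}
      (a ^ 2 + b ^ 2 + c ^ 2 + 2 * n * c) := by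
  rcases Nat.eq_zero_or_pos n with rfl | hn
  · simpa using trap1 a b c ha hb hc hl
  have ha' : (0 : ℝ) < a := by exact_mod_cast ha
  have hb' : (0 : ℝ) < b := by exact_mod_cast hb
  have hc' : (0 : ℝ) < c := by exact_mod_cast hc
  have hn' : (0 : ℝ) < n := by exact_mod_cast hn
  have hl' : (c : ℝ) ^ 2 = a ^ 2 + b ^ 2 + a * b := by exact_mod_cast hl
  -- the shifted pieces
  have hC := TR_shiftx (fun x y => 0 ≤ y ∧ b * y ≤ a * x ∧ b * x + (a + b) * y ≤ b * c ^ 2)
    (n * c) (reg_c a b c ha hb hc hl)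
  have hA := TR_shiftx (fun x y => x + y ≤ c ^ 2 ∧ y ≤ a * b ∧ b * c ^ 2 ≤ b * x + (a + b) * y)
    (n * c) (reg_a a b c ha hb hl)
  have key : ∀ x y : ℝ, 0 ≤ x → y ≤ a * b → a * x ≤ b * y →
      b * x + (a + b) * y ≤ b * c ^ 2 := by
    intro x y h1 h2 h3
    have h4 : a * (b * x + (a + b) * y) ≤ a * (b * c ^ 2) := by
      have h5 : a * (b * x + (a + b) * y) ≤ c ^ 2 * y := by
        rw [hl']
        nlinarith
      have h6 : (c : ℝ) ^ 2 * y ≤ c ^ 2 * (a * b) := by
        apply mul_le_mul_of_nonneg_left h2 (by positivity)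
      linarith
    exact le_of_mul_le_mul_left h4 ha'
  -- the top of the middle triangle
  have key2 : ∀ x y : ℝ, y ≤ a * b → a * x ≤ b * y →
      b * x + (a + b) * y ≤ b * c ^ 2 := by
    intro x y h2 h3
    have h4 : a * (b * x + (a + b) * y) ≤ a * (b * c ^ 2) := by
      have h5 : a * (b * x + (a + b) * y) ≤ c ^ 2 * y := by
        rw [hl']
        nlinarith
      have h6 : (c : ℝ) ^ 2 * y ≤ c ^ 2 * (a * b) := by
        apply mul_le_mul_of_nonneg_left h2 (by positivity)
      linarith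
    exact le_of_mul_le_mul_left h4 ha'
  have hnc : (0 : ℝ) < n * c := by positivity
  have hab : (0 : ℝ) < a * b := by positivity
  -- left part
  have h1 := (reg_b a b c ha hb hl).union (reg_p3 a b c ha hb hc hl n hn)
    (sep_of (a : ℝ) (-(b : ℝ)) 0 (by rintro ⟨h, _⟩; exact ha'.ne' h)
      (by rintro x y ⟨_, _, h⟩; simp only at h; linarith)
      (by rintro x y ⟨_, _, h, _⟩; simp only at h; linarith))
  have h2 := h1.union hC
    (sep_of (a : ℝ) (-(b : ℝ)) (n * (a * c)) (by rintro ⟨h, _⟩; exact ha'.ne' h)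
      (by
        rintro x y (⟨_, _, h⟩ | ⟨_, _, _, h⟩)
        · simp only at h
          have : (0 : ℝ) < n * (a * c) := by positivity
          linarith
        · simp only at h; linarith)
      (by
        rintro x y ⟨_, h, _⟩
        simp only at h
        have e : a * (x - n * c) = a * x - n * (a * c) := by ring
        linarith))
  have h3 := h2.union hA
    (sep_of (b : ℝ) ((a : ℝ) + b) (b * c ^ 2 + b * (n * c)) (by rintro ⟨h, _⟩; exact hb'.ne' h)
      (by
        rintro x y ((⟨h1, h2, h3⟩ | ⟨h0, h1, h2, h3⟩) | ⟨_, _, h⟩)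
        · have := key x y h1 h2 h3
          have : 0 < b * (n * c : ℝ) := by positivity
          linarith
        · simp only at h0 h1 h2 h3
          have := key2 (x - n * c) y h1 (by
            have e : a * (x - n * c) = a * x - n * (a * c) := by ring
            linarith)
          have e : b * (x - n * c) = b * x - b * (n * c : ℝ) := by ring
          linarith
        · simp only at h
          have e : b * (x - n * c) = b * x - b * (n * c : ℝ) := by ring
          linarith)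
      (by
        rintro x y ⟨_, _, h⟩
        simp only at h
        have e : b * (x - n * c) = b * x - b * (n * c : ℝ) := by ring
        linarith))
  rw [show a ^ 2 + b ^ 2 + c ^ 2 + 2 * n * c = b ^ 2 + 2 * n * c + c ^ 2 + a ^ 2 by ring]
  convert h3 using 1
  ext ⟨x, y⟩
  simp only [mem_ofPred_eq, mem_union]
  have ex : a * (x - n * c) = a * x - n * (a * c) := by ring
  have ebx : b * (x - n * c) = b * x - b * (n * c : ℝ) := by ring
  constructor
  · rintro ⟨h1, h2, h3, h4⟩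
    rcases le_total (a * x) (b * y) with h | h
    · exact Or.inl (Or.inl (Or.inl ⟨h1, h3, h⟩))
    · rcases le_total (a * x) (b * y + n * (a * c)) with h' | h'
      · exact Or.inl (Or.inl (Or.inr ⟨h2, h3, h, h'⟩))
      · rcases le_total (b * (x - n * c) + (a + b) * y) (b * (c : ℝ) ^ 2) with h'' | h''
        · exact Or.inl (Or.inr ⟨h2, by linarith, h''⟩)
        · exact Or.inr ⟨by linarith, h3, h''⟩
  · rintro (((⟨h1, h2, h3⟩ | ⟨h0, h1, h2, h3⟩) | ⟨h1, h2, h3⟩) | ⟨h1, h2, h3⟩)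
    · have hy : 0 ≤ y := by
        have : 0 ≤ b * y := le_trans (by positivity) h3
        exact nonneg_of_mul_nonneg_right this hb'
      refine ⟨h1, hy, h2, ?_⟩
      have := key x y h1 h2 h3
      have h4 : b * (x + y) ≤ b * c ^ 2 := by nlinarith
      have := le_of_mul_le_mul_left h4 hb'
      linarith
    · have hx : 0 ≤ x := by
        have : 0 ≤ a * x := le_trans (by positivity) h2
        exact nonneg_of_mul_nonneg_right this ha'
      refine ⟨hx, h0, h1, ?_⟩
      have h5 := key2 (x - n * c) y h1 (by linarith)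
      have h4 : b * (x - n * c + y) ≤ b * c ^ 2 := by nlinarith
      have := le_of_mul_le_mul_left h4 hb'
      linarith
    · have hx : 0 ≤ x - n * c := by
        have : 0 ≤ a * (x - n * c) := le_trans (by positivity) h2
        exact nonneg_of_mul_nonneg_right this ha'
      refine ⟨by linarith, h1, ?_, ?_⟩
      · have h4 : c ^ 2 * y ≤ c ^ 2 * (a * b) := by
          have : a * (b * (x - n * c) + (a + b) * y) ≤ a * (b * c ^ 2) :=
            mul_le_mul_of_nonneg_left h3 ha'.le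
          rw [hl'] at this ⊢
          nlinarith
        exact le_of_mul_le_mul_left h4 (by positivity)
      · have h4 : b * (x - n * c + y) ≤ b * c ^ 2 := by nlinarith
        have := le_of_mul_le_mul_left h4 hb'
        linarith
    · have h4 : a * b * y ≤ a * b * (a * b) := mul_le_mul_of_nonneg_left h2 (by positivity)
      have hy : 0 ≤ y := by
        have : 0 ≤ a * y := by nlinarith
        exact nonneg_of_mul_nonneg_right this ha'
      have h5 : 0 ≤ b * (x - n * c) := by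
        rw [hl'] at h3
        nlinarith
      have h6 := nonneg_of_mul_nonneg_right h5 hb'
      refine ⟨by linarith, hy, h2, by linarith⟩

/-- one layer -/
lemma layer3 (n₁ n₂ n₃ : ℕ) (β : ℝ) (hβ : β = c ^ 2 + n₃ * c + n₁ * a + n₂ * b) :
    TA a b c {p | 0 ≤ p.1 ∧ 0 ≤ p.2 ∧ p.2 ≤ a * b ∧ p.1 + p.2 ≤ β}
      (β ^ 2 - (β - a * b) ^ 2) := by
  have ha' : (0 : ℝ) < a := by exact_mod_cast ha
  have hb' : (0 : ℝ) < b := by exact_mod_cast hb
  have hc' : (0 : ℝ) < c := by exact_mod_cast hc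
  have hl' : (c : ℝ) ^ 2 = a ^ 2 + b ^ 2 + a * b := by exact_mod_cast hl
  have hn3 : (0 : ℝ) ≤ n₃ * c := by positivity
  have hab : (a : ℝ) * b ≤ c ^ 2 + n₃ * c := by
    rw [hl']; linarith [sq_nonneg (a : ℝ), sq_nonneg (b : ℝ)]
  obtain ⟨K, hK⟩ : ∃ K : ℝ, K = c ^ 2 + n₃ * c := ⟨_, rfl⟩
  have h0 : TA a b c {p | 0 ≤ p.1 ∧ 0 ≤ p.2 ∧ p.2 ≤ a * b ∧ p.1 + p.2 ≤ K}
      (K ^ 2 - (K - a * b) ^ 2) := by
    rw [hK]
    refine ⟨_, trapc a b c ha hb hc hl n₃, ?_⟩
    push_cast
    linear_combination (-(a : ℝ) * b) * hl'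
  rw [← hK] at hab hβ
  -- first parallelogram
  have h1 : TA a b c {p | 0 ≤ p.1 ∧ 0 ≤ p.2 ∧ p.2 ≤ a * b ∧ p.1 + p.2 ≤ K + n₁ * a}
      ((K + n₁ * a) ^ 2 - (K + n₁ * a - a * b) ^ 2) := by
    rcases Nat.eq_zero_or_pos n₁ with rfl | hn
    · simpa using h0
    · have hp : TA a b c {p : ℝ × ℝ | 0 ≤ p.2 ∧ p.2 ≤ a * b ∧ K ≤ p.1 + p.2 ∧
          p.1 + p.2 ≤ K + n₁ * a} (2 * n₁ * a * (a * b)) :=
        ⟨_, reg_p1 a b c ha hb hl n₁ hn K, by push_cast; ring⟩
      have h := h0.union hp (sep_of 1 1 K (by norm_num)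
        (by rintro x y ⟨_, _, _, h⟩; simp only at h; linarith)
        (by rintro x y ⟨_, _, h, _⟩; simp only at h; linarith))
      convert h using 1
      · ext ⟨x, y⟩
        simp only [mem_ofPred_eq, mem_union]
        constructor
        · rintro ⟨h1, h2, h3, h4⟩
          rcases le_total (x + y) K with h | h
          · exact Or.inl ⟨h1, h2, h3, h⟩
          · exact Or.inr ⟨h2, h3, h, h4⟩
        · have : (0 : ℝ) ≤ n₁ * a := by positivity
          rintro (⟨h1, h2, h3, h4⟩ | ⟨h1, h2, h3, h4⟩)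
          · exact ⟨h1, h2, h3, by linarith⟩
          · exact ⟨by linarith, h1, h2, h4⟩
      · ring
  rcases Nat.eq_zero_or_pos n₂ with rfl | hn
  · have : β = K + n₁ * a := by rw [hβ]; simp
    rw [this]
    exact h1
  · have hp : TA a b c {p : ℝ × ℝ | 0 ≤ p.2 ∧ p.2 ≤ a * b ∧ K + n₁ * a ≤ p.1 + p.2 ∧
        p.1 + p.2 ≤ K + n₁ * a + n₂ * b} (2 * b * n₂ * (a * b)) :=
      ⟨_, reg_p2 a b c ha hb hl n₂ hn (K + n₁ * a), by push_cast; ring⟩
    have h := h1.union hp (sep_of 1 1 (K + n₁ * a) (by norm_num)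
      (by rintro x y ⟨_, _, _, h⟩; simp only at h; linarith)
      (by rintro x y ⟨_, _, h, _⟩; simp only at h; linarith))
    have hn1 : (0 : ℝ) ≤ n₁ * a := by positivity
    have hn2 : (0 : ℝ) ≤ n₂ * b := by positivity
    convert h using 1
    · ext ⟨x, y⟩
      simp only [mem_ofPred_eq, mem_union]
      constructor
      · rintro ⟨h1, h2, h3, h4⟩
        rcases le_total (x + y) (K + n₁ * a) with h | h
        · exact Or.inl ⟨h1, h2, h3, h⟩
        · exact Or.inr ⟨h2, h3, h, by linarith⟩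
      · rintro (⟨h1, h2, h3, h4⟩ | ⟨h1, h2, h3, h4⟩)
        · exact ⟨h1, h2, h3, by linarith⟩
        · exact ⟨by linarith, h1, h2, by linarith⟩
    · rw [hβ]; ring

/-- a stack of `h` layers -/
lemma stack3 (h : ℕ) (hh : 1 ≤ h) : ∀ (n₁ n₂ n₃ : ℕ) (β : ℝ),
    β = (h - 1) * (a * b) + c ^ 2 + n₃ * c + n₁ * a + n₂ * b →
    TA a b c {p | 0 ≤ p.1 ∧ 0 ≤ p.2 ∧ p.2 ≤ h * (a * b) ∧ p.1 + p.2 ≤ β}
      (β ^ 2 - (β - h * (a * b)) ^ 2) := by
  have hab : (0 : ℝ) < a * b := by
    have ha' : (0 : ℝ) < a := by exact_mod_cast ha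
    have hb' : (0 : ℝ) < b := by exact_mod_cast hb
    positivity
  have hc' : (0 : ℝ) < (c : ℝ) ^ 2 := by
    have hc' : (0 : ℝ) < c := by exact_mod_cast hc
    positivity
  induction h, hh using Nat.le_induction with
  | base =>
    intro n₁ n₂ n₃ β hβ
    have := layer3 a b c ha hb hc hl n₁ n₂ n₃ β (by rw [hβ]; simp)
    simpa using this
  | succ h hh ih =>
    intro n₁ n₂ n₃ β hβ
    have h1 := layer3 a b c ha hb hc hl (n₁ + h * b) n₂ n₃ β (by rw [hβ]; push_cast; ring)
    have h2 := (ih n₁ n₂ n₃ (β - a * b) (by rw [hβ]; push_cast; ring)).shift (a * b)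
    have h3 := h1.union h2 (sep_of 0 1 (a * b) (by norm_num)
      (by rintro x y ⟨_, _, h, _⟩; simp only at h; linarith)
      (by rintro x y ⟨_, h, _, _⟩; simp only at h; linarith))
    convert h3 using 1
    · ext ⟨x, y⟩
      simp only [mem_ofPred_eq, mem_union]
      push_cast
      constructor
      · rintro ⟨h1, h2, h3, h4⟩
        rcases le_total y (a * b) with h | h
        · exact Or.inl ⟨h1, h2, h, h4⟩
        · exact Or.inr ⟨h1, by linarith, by linarith, by linarith⟩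
      · have : (0 : ℝ) ≤ h * (a * b) := by positivity
        rintro (⟨h1, h2, h3, h4⟩ | ⟨h1, h2, h3, h4⟩)
        · exact ⟨h1, h2, by linarith, h4⟩
        · exact ⟨h1, by linarith, by linarith, by linarith⟩
    · push_cast; ring

/-- the pinwheel: the equilateral triangle of side `3 j ab` -/
lemma pinwheel3 (j : ℕ) (hj : 1 ≤ j) (n₁ n₂ n₃ : ℕ)
    (hn : (j + 1) * (a * b) = c ^ 2 + n₃ * c + n₁ * a + n₂ * b) :
    TA a b c {p | 0 ≤ p.1 ∧ 0 ≤ p.2 ∧ p.1 + p.2 ≤ (3 * j : ℕ) * ((a : ℝ) * b)}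
      (((3 * j : ℕ) * ((a : ℝ) * b)) ^ 2) := by
  have hn' : ((j : ℝ) + 1) * (a * b) = c ^ 2 + n₃ * c + n₁ * a + n₂ * b := by exact_mod_cast hn
  have hj' : (1 : ℝ) ≤ j := by exact_mod_cast hj
  have hpos : (0 : ℝ) < a * b := by
    have ha' : (0 : ℝ) < a := by exact_mod_cast ha
    have hb' : (0 : ℝ) < b := by exact_mod_cast hb
    positivity
  set Y : ℝ := j * ((a : ℝ) * b) with hY
  have hYpos : 0 < Y := by positivity
  have h1 := stack3 a b c ha hb hc hl j hj n₁ n₂ n₃ (2 * Y) (by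
    rw [hY]
    linear_combination hn')
  rw [← hY] at h1
  have h2 := h1.rot (Q := fun x y => 0 ≤ x ∧ 0 ≤ y ∧ y ≤ Y ∧ x + y ≤ 2 * Y) (3 * Y)
  have h3 := h2.rot (Q := fun x y => 0 ≤ y ∧ 0 ≤ 3 * Y - x - y ∧ 3 * Y - x - y ≤ Y ∧
    y + (3 * Y - x - y) ≤ 2 * Y) (3 * Y)
  have h := h1.union3 h2 h3
    (sep_of 1 1 (2 * Y) (by norm_num)
      (by rintro x y ⟨_, _, _, h⟩; simp only at h; linarith)
      (by rintro x y ⟨_, _, h, _⟩; simp only at h; linarith))
    (sep_of 0 1 Y (by norm_num)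
      (by rintro x y ⟨_, _, h, _⟩; simp only at h; linarith)
      (by rintro x y ⟨_, _, _, h⟩; simp only at h; linarith))
    (sep_of (-1) 0 (-Y) (by norm_num)
      (by rintro x y ⟨_, _, _, h⟩; simp only at h; linarith)
      (by rintro x y ⟨_, _, h, _⟩; simp only at h; linarith))
  have e3 : ((3 * j : ℕ) : ℝ) * ((a : ℝ) * b) = 3 * Y := by
    rw [hY]; push_cast; ring
  rw [e3]
  convert h using 1
  · ext ⟨x, y⟩
    simp only [mem_ofPred_eq, mem_union]
    push_cast
    constructor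
    · rintro ⟨h1, h2, h3⟩
      rcases le_total y Y with h | h
      · rcases le_total (x + y) (2 * Y) with h' | h'
        · exact Or.inl (Or.inl ⟨h1, h2, h, h'⟩)
        · exact Or.inl (Or.inr ⟨h2, by linarith, by linarith, by linarith⟩)
      · rcases le_total x Y with h' | h'
        · exact Or.inr ⟨by linarith, by linarith, by linarith, by linarith⟩
        · exact Or.inl (Or.inr ⟨h2, by linarith, by linarith, by linarith⟩)
    · rintro ((⟨h1, h2, h3, h4⟩ | ⟨h1, h2, h3, h4⟩) | ⟨h1, h2, h3, h4⟩)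
      · exact ⟨h1, h2, by linarith⟩
      · exact ⟨by linarith, h1, by linarith⟩
      · exact ⟨by linarith, by linarith, by linarith⟩
  · ring

/-- equilateral triangles of side `m ab`, `m ≥ 3 j` -/
lemma equi3 (j : ℕ) (hj : 1 ≤ j) (n₁ n₂ n₃ : ℕ)
    (hn : (j + 1) * (a * b) = c ^ 2 + n₃ * c + n₁ * a + n₂ * b) (m : ℕ) (hm : 3 * j ≤ m) :
    TA a b c {p | 0 ≤ p.1 ∧ 0 ≤ p.2 ∧ p.1 + p.2 ≤ m * ((a : ℝ) * b)}
      ((m * ((a : ℝ) * b)) ^ 2) := by
  have hn' : ((j : ℝ) + 1) * (a * b) = c ^ 2 + n₃ * c + n₁ * a + n₂ * b := by exact_mod_cast hn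
  have hpos : (0 : ℝ) < a * b := by
    have ha' : (0 : ℝ) < a := by exact_mod_cast ha
    have hb' : (0 : ℝ) < b := by exact_mod_cast hb
    positivity
  induction m, hm using Nat.le_induction with
  | base => exact pinwheel3 a b c ha hb hc hl j hj n₁ n₂ n₃ hn
  | succ m hm ih =>
    obtain ⟨r, hr⟩ := Nat.exists_eq_add_of_le (show j ≤ m by omega)
    have hr' : (m : ℝ) = j + r := by exact_mod_cast hr
    have h1 := layer3 a b c ha hb hc hl (n₁ + r * b) n₂ n₃ ((m + 1 : ℕ) * ((a : ℝ) * b)) (by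
      push_cast
      rw [hr']
      linear_combination hn')
    have h2 := ih.shift (a * b)
    have h3 := h1.union h2 (sep_of 0 1 (a * b) (by norm_num)
      (by rintro x y ⟨_, _, h, _⟩; simp only at h; linarith)
      (by rintro x y ⟨_, h, _⟩; simp only at h; linarith))
    convert h3 using 1
    · ext ⟨x, y⟩
      simp only [mem_ofPred_eq, mem_union]
      push_cast
      constructor
      · rintro ⟨h1, h2, h3⟩
        rcases le_total y (a * b) with h | h
        · exact Or.inl ⟨h1, h2, h, h3⟩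
        · exact Or.inr ⟨h1, by linarith, by linarith⟩
      · rintro (⟨h1, h2, h3, h4⟩ | ⟨h1, h2, h3⟩)
        · exact ⟨h1, h2, h4⟩
        · exact ⟨h1, by linarith, by linarith⟩
    · push_cast; ring

end

end Pool.Agent.KS6_79.TT
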